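import Pool.Agent.MWGI.StmtsC

/-! Row MWL of squad MWGI: the edge `Le` gives the move `LEo`. -/

namespace Pool.Agent.MWGI.H53

open Pool.Agent.Helper14_MV Pool.Agent.Helper2_MV Pool.Agent.MVO Pool.Agent.MWL Pool.Agent.MWS
  Pool.Agent.MWH Pool.Agent.MWGI

/-- one insertion of `x^n` between two letters `x` -/
def St (n x : ℕ) (l l' : List ℕ) : Prop :=
  ∃ u w w' v, l = u ++ x :: (w ++ (w' ++ x :: v)) ∧
    l' = u ++ x :: (w ++ (List.replicate n x ++ (w' ++ x :: v)))

/-- all letters of the blocks are multiple -/
def MM (k : ℕ) (F : ℕ → List ℕ) : Prop := ∀ j ≤ k, ∀ c ∈ F j, 2 ≤ (asm k F).count c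

lemma St.mem {n x : ℕ} {l l' : List ℕ} (h : St n x l l') {c : ℕ} (hc : c ∈ l') : c ∈ l := by
  obtain ⟨u, w, w', v, rfl, rfl⟩ := h
  simp only [List.mem_append, List.mem_cons, List.mem_replicate] at hc ⊢
  tauto

lemma St.cnt {n x : ℕ} {l l' : List ℕ} (h : St n x l l') (c : ℕ) : l.count c ≤ l'.count c := by
  obtain ⟨u, w, w', v, rfl, rfl⟩ := h
  simp only [List.count_append, List.count_cons]
  omega

lemma cnt_up {k m : ℕ} (hm : m ≤ k) (G : ℕ → List ℕ) (L : List ℕ) (c : ℕ) :
    (asm k (Function.update G m L)).count c =
      (pre G m).count c + L.count c + (suf G m (k - m)).count c := by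
  rw [asm_update hm, List.count_append, List.count_append]

lemma mm_up {k m : ℕ} (hm : m ≤ k) {G : ℕ → List ℕ} {L L' : List ℕ}
    (hMM : MM k (Function.update G m L)) (h1 : ∀ c ∈ L', c ∈ L)
    (h2 : ∀ c, L.count c ≤ L'.count c) : MM k (Function.update G m L') := by
  intro j hj c hc
  have h3 : 2 ≤ (asm k (Function.update G m L)).count c := by
    by_cases e : j = m
    · subst e
      rw [Function.update_self] at hc
      exact hMM j hj c (by rw [Function.update_self]; exact h1 c hc)
    · rw [Function.update_of_ne e] at hc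
      exact hMM j hj c (by rw [Function.update_of_ne e]; exact hc)
  rw [cnt_up hm] at h3 ⊢
  have := h2 c
  omega

section
variable {θ : FIC}

lemma tr {u v w : List ℕ} (h : RR θ u v) (h' : RR θ v w) : RR θ u w := θ.trans h h'

lemma one {n k m x : ℕ} {G : ℕ → List ℕ} {L L' : List ℕ} (hit : It n (RR θ)) (hm : m ≤ k)
    (hMM : MM k (Function.update G m L)) (h : St n x L L') :
    RR θ (asm k (Function.update G m L)) (asm k (Function.update G m L')) ∧
      MM k (Function.update G m L') := by
  refine ⟨?_, mm_up hm hMM (fun c hc => h.mem hc) (fun c => h.cnt c)⟩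
  obtain ⟨u, w, w', v, rfl, rfl⟩ := h
  have e1 : asm k (Function.update G m (u ++ x :: (w ++ (w' ++ x :: v)))) =
      (pre G m ++ u) ++ x :: (w ++ (w' ++ x :: (v ++ suf G m (k - m)))) := by
    rw [asm_update hm]
    simp only [List.append_assoc, List.cons_append]
  have e2 : asm k (Function.update G m (u ++ x :: (w ++ (List.replicate n x ++
      (w' ++ x :: v))))) =
      (pre G m ++ u) ++ x :: (w ++ (List.replicate n x ++
        (w' ++ x :: (v ++ suf G m (k - m))))) := by
    rw [asm_update hm]
    simp only [List.append_assoc, List.cons_append]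
  have hmul : MVO.Sys.Mul (w ++ w')
      ((pre G m ++ u) ++ x :: (w ++ (w' ++ x :: (v ++ suf G m (k - m))))) := by
    intro c hc
    rw [← e1]
    apply hMM m hm c
    rw [Function.update_self]
    simp only [List.mem_append, List.mem_cons] at hc ⊢
    tauto
  rw [e1, e2]
  exact hit _ _ _ _ _ hmul

lemma star {n k m x : ℕ} {G : ℕ → List ℕ} {L L' : List ℕ} (hit : It n (RR θ)) (hm : m ≤ k)
    (hMM : MM k (Function.update G m L)) (h : Relation.ReflTransGen (St n x) L L') :
    RR θ (asm k (Function.update G m L)) (asm k (Function.update G m L')) ∧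
      MM k (Function.update G m L') := by
  induction h with
  | refl => exact ⟨RR.refl _, hMM⟩
  | tail _ h ih =>
    obtain ⟨h1, h2⟩ := one hit hm ih.2 h
    exact ⟨tr ih.1 h1, h2⟩

lemma allb {n k x : ℕ} {F F' : ℕ → List ℕ} (hit : It n (RR θ)) (hMM : MM k F)
    (h : ∀ j ≤ k, Relation.ReflTransGen (St n x) (F j) (F' j)) :
    RR θ (asm k F) (asm k F') := by
  have key : ∀ m, m ≤ k + 1 → RR θ (asm k F) (asm k (fun j => if j < m then F' j else F j)) ∧
      MM k (fun j => if j < m then F' j else F j) := by
    intro m
    induction m with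
    | zero =>
      intro _
      have e : (fun j => if j < 0 then F' j else F j) = F := by
        funext j
        simp
      rw [e]
      exact ⟨RR.refl _, hMM⟩
    | succ m ih =>
      intro hm
      obtain ⟨h1, h2⟩ := ih (by omega)
      obtain ⟨G, hG⟩ : ∃ G : ℕ → List ℕ, G = fun j => if j < m then F' j else F j := ⟨_, rfl⟩
      have e1 : Function.update G m (F m) = G := by
        rw [hG]
        funext j
        by_cases e : j = m
        · subst e
          simp
        · rw [Function.update_of_ne e]
      have e2 : Function.update G m (F' m) = fun j => if j < m + 1 then F' j else F j := by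
        rw [hG]
        funext j
        by_cases e : j = m
        · subst e
          simp
        · rw [Function.update_of_ne e]
          by_cases h3 : j < m
          · rw [if_pos h3, if_pos (by omega)]
          · rw [if_neg h3, if_neg (by omega)]
      rw [← hG] at h1 h2
      have h3 := star (G := G) hit (by omega : m ≤ k) (by rw [e1]; exact h2) (h m (by omega))
      rw [e1, e2] at h3
      exact ⟨tr h1 h3.1, h3.2⟩
  have h1 := (key (k + 1) le_rfl).1
  have e : asm k (fun j => if j < k + 1 then F' j else F j) = asm k F' := by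
    apply asm_congr
    intro j hj
    rw [if_pos (by omega)]
  rw [e] at h1
  exact h1

end

/-- the family with a block of the form `Ok1` has multiple letters only -/
lemma mm0 {k i : ℕ} {C : ℕ → List ℕ} {H l : List ℕ} (hik : i ≤ k) (hC : OkB k C)
    (hO : Ok1 k H (pre C i) (suf C i (k - i)) l) : MM k (Function.update C i l) := by
  intro j hj c hc
  rw [asm_update hik, List.append_assoc]
  by_cases e : j = i
  · subst e
    rw [Function.update_self] at hc
    by_cases hH : c ∈ H
    · have := hO.hv c hH
      rw [List.count_append, List.count_append]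
      omega
    · obtain ⟨h1, _, h3⟩ := hO.lt c hc hH
      rw [List.count_append, List.count_append]
      rcases h3 with h3 | h3
      · have := List.count_pos_iff.2 h3
        omega
      · have := List.count_pos_iff.2 h3
        omega
  · rw [Function.update_of_ne e] at hc
    apply hO.mu c _ (hC.ok j hj c hc)
    rw [List.mem_append]
    rcases Nat.lt_or_gt_of_ne e with h | h
    · exact Or.inl (mem_pre.2 (Or.inr ⟨j, h, hc⟩))
    · exact Or.inr (mem_suf.2 (Or.inr ⟨j, h, by omega, hc⟩))

/-- two letters in a list -/
lemma twox {l : List ℕ} {x : ℕ} (h : 2 ≤ l.count x) :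
    ∃ P w Q, l = P ++ x :: (w ++ x :: Q) := by
  obtain ⟨P, R, hl⟩ := List.append_of_mem (List.count_pos_iff.1 (by omega : 0 < l.count x))
  subst hl
  by_cases h1 : x ∈ R
  · obtain ⟨w, Q, hR⟩ := List.append_of_mem h1
    exact ⟨P, w, Q, by rw [hR]⟩
  · have h2 : R.count x = 0 := List.count_eq_zero.2 h1
    rw [List.count_append, List.count_cons_self, h2] at h
    have h3 : x ∈ P := List.count_pos_iff.1 (by omega)
    obtain ⟨P1, P2, hP⟩ := List.append_of_mem h3
    exact ⟨P1, P2, R, by rw [hP]; simp⟩

lemma repx (n x : ℕ) (l : List ℕ) :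
    x :: (List.replicate n x ++ l) = List.replicate n x ++ x :: l := by
  induction n with
  | zero => rfl
  | succ n ih =>
    rw [List.replicate_succ, List.cons_append, ih]
    rfl

/-- the double insertion behind the letter `x` -/
lemma ins2 (n x : ℕ) (u w v : List ℕ) :
    Relation.ReflTransGen (St n x) (u ++ x :: (w ++ x :: v))
      ((u ++ [x]) ++ (List.replicate (2 * n) x ++ (w ++ x :: v))) := by
  have h1 : St n x (u ++ x :: (w ++ x :: v))
      (u ++ x :: (List.replicate n x ++ (w ++ x :: v))) :=
    ⟨u, [], w, v, rfl, rfl⟩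
  have h2 : St n x (u ++ x :: (List.replicate n x ++ (w ++ x :: v)))
      (u ++ x :: (List.replicate n x ++ (List.replicate n x ++ (w ++ x :: v)))) :=
    ⟨u, List.replicate n x, w, v, rfl, rfl⟩
  have e : (u ++ [x]) ++ (List.replicate (2 * n) x ++ (w ++ x :: v)) =
      u ++ x :: (List.replicate n x ++ (List.replicate n x ++ (w ++ x :: v))) := by
    rw [two_mul, List.replicate_add]
    simp only [List.append_assoc, List.cons_append, List.nil_append]
  rw [e]
  exact (Relation.ReflTransGen.single h1).tail h2

lemma insi (n x a : ℕ) (u D : List ℕ) :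
    Relation.ReflTransGen (St n x) (u ++ a :: x :: x :: D)
      (u ++ a :: (List.replicate (2 * n) x ++ x :: x :: D)) := by
  have h := ins2 n x (u ++ [a]) [] D
  have e1 : (u ++ [a]) ++ x :: ([] ++ x :: D) = u ++ a :: x :: x :: D := by simp
  have e2 : ((u ++ [a]) ++ [x]) ++ (List.replicate (2 * n) x ++ ([] ++ x :: D)) =
      u ++ a :: (List.replicate (2 * n) x ++ x :: x :: D) := by
    rw [← repx]
    simp only [List.append_assoc, List.cons_append, List.nil_append]
  rw [e1, e2] at h
  exact h

/-- the substitution -/
def hs (x a c : ℕ) : List ℕ := if c = 0 then [x] else [a]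

lemma hsX (x a m : ℕ) : (X m).flatMap (hs x a) = List.replicate m x := by
  induction m with
  | zero => rfl
  | succ m ih =>
    change ((0 :: X m)).flatMap (hs x a) = _
    rw [List.flatMap_cons, ih, List.replicate_succ]
    rfl

lemma blk_wz (n k i p : ℕ) (Z : ℕ → Bool) (u v : ℕ) : BlkOk k (wz n i p Z u v) := by
  intro j _ c hc
  have h : c = 0 ∨ c = 1 := by
    unfold wz at hc
    split_ifs at hc with h1 h2 h3
    · simp only [List.mem_append, List.mem_cons, List.mem_replicate] at hc
      tauto
    · simp only [List.mem_singleton] at hc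
      exact Or.inr hc
    · exact Or.inl (List.eq_of_mem_replicate hc)
    · simp at hc
  unfold NS
  rcases h with h | h <;> omega

theorem mwl : MwlStmt := by
  intro n k θ C hB hC i p x a hA Z hZ hLe H haH A D hO
  have hn := hB.pos
  have hit := hB.it
  -- the places
  have hch : ∀ j, ∃ P Q : List ℕ, j ≤ k →
      (j = i → P = A ∧ Q = x :: x :: D) ∧ (j ≠ i → j = p → C j = P ++ a :: Q) ∧
      (j ≠ i → j ≠ p → x ∈ C j → ∃ P' w Q', C j = P' ++ x :: (w ++ x :: Q') ∧ P = P' ++ [x] ∧
        Q = w ++ x :: Q') ∧ (j ≠ i → j ≠ p → x ∉ C j → P = C j ∧ Q = []) := by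
    intro j
    by_cases e1 : j = i
    · exact ⟨A, x :: x :: D, fun _ => ⟨fun _ => ⟨rfl, rfl⟩, fun h => absurd e1 h,
        fun h => absurd e1 h, fun h => absurd e1 h⟩⟩
    by_cases e2 : j = p
    · have hap : a ∈ C p := List.count_pos_iff.1 (by rw [hA.ap]; exact Nat.one_pos)
      obtain ⟨P, Q, hPQ⟩ := List.append_of_mem hap
      exact ⟨P, Q, fun _ => ⟨fun h => absurd h e1, fun _ _ => by rw [e2]; exact hPQ,
        fun _ h => absurd e2 h, fun _ h => absurd e2 h⟩⟩
    by_cases e3 : x ∈ C j
    · by_cases hj : j ≤ k
      · have h2 : 2 ≤ (C j).count x := by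
          have h3 := List.count_pos_iff.2 e3
          rcases hA.hx j hj with h | h <;> omega
        obtain ⟨P', w, Q', hC'⟩ := twox h2
        exact ⟨P' ++ [x], w ++ x :: Q', fun _ => ⟨fun h => absurd h e1, fun _ h => absurd h e2,
          fun _ _ _ => ⟨P', w, Q', hC', rfl, rfl⟩, fun _ _ h => absurd e3 h⟩⟩
      · exact ⟨[], [], fun h => absurd h hj⟩
    · exact ⟨C j, [], fun _ => ⟨fun h => absurd h e1, fun _ h => absurd h e2,
        fun _ _ h => absurd h e3, fun _ _ _ => ⟨rfl, rfl⟩⟩⟩
  choose P Q hPQ using hch
  have hr := rr_ins θ P Q (hs x a) (blk_wz n k i p Z 0 (2 * n)) (blk_wz n k i p Z (2 * n) (2 * n))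
    hLe
  have hx0 : Relation.ReflTransGen (St n x) (A ++ (List.replicate n x ++ a :: x :: x :: D))
      (A ++ (List.replicate (2 * n) x ++ a :: (List.replicate (2 * n) x ++ x :: x :: D))) := by
    have h1 : St n x (A ++ (List.replicate n x ++ a :: x :: x :: D))
        (A ++ (List.replicate (2 * n) x ++ a :: x :: x :: D)) := by
      obtain ⟨m, rfl⟩ : ∃ m, n = m + 1 := ⟨n - 1, by omega⟩
      refine ⟨A, [], List.replicate m x ++ [a], x :: D, ?_, ?_⟩
      · rw [List.replicate_succ]
        simp only [List.append_assoc, List.cons_append, List.nil_append]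
      · have e : 2 * (m + 1) = 1 + ((m + 1) + m) := by ring
        rw [e, List.replicate_add 1, List.replicate_add (m + 1) m]
        simp only [List.append_assoc, List.cons_append, List.nil_append, List.replicate_one]
    have h2 := insi n x a (A ++ List.replicate (2 * n) x) D
    simp only [List.append_assoc] at h2
    exact (Relation.ReflTransGen.single h1).trans h2
  -- the other blocks
  have hoth : ∀ (l : List ℕ) (u v : ℕ), ∀ j ≤ k, j ≠ i →
      Relation.ReflTransGen (St n x) (Function.update C i l j)
        (P j ++ (wz n i p Z u v j).flatMap (hs x a) ++ Q j) := by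
    intro l u v j hj e1
    obtain ⟨_, c2, c3, c4⟩ := hPQ j hj
    rw [Function.update_of_ne e1]
    unfold wz
    rw [if_neg e1]
    by_cases e2 : j = p
    · rw [if_pos e2, c2 e1 e2]
      have e : ([1] : List ℕ).flatMap (hs x a) = [a] := rfl
      rw [e]
      simp only [List.append_assoc, List.cons_append, List.nil_append]
      exact Relation.ReflTransGen.refl
    · rw [if_neg e2]
      by_cases e3 : x ∈ C j
      · have hz : Z j = true := (hZ j hj e1 e2).2 e3
        rw [if_pos hz, hsX]
        obtain ⟨P', w, Q', d1, d2, d3⟩ := c3 e1 e2 e3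
        rw [d1, d2, d3]
        have h := ins2 n x P' w Q'
        simp only [List.append_assoc] at h ⊢
        exact h
      · have hz : ¬ Z j = true := fun h => e3 ((hZ j hj e1 e2).1 h)
        rw [if_neg hz]
        obtain ⟨d1, d2⟩ := c4 e1 e2 e3
        rw [d1, d2]
        have e : (C j ++ ([] : List ℕ).flatMap (hs x a) ++ []) = C j := by simp
        rw [e]
  have s1 : RR θ (asm k (Function.update C i (A ++ a :: x :: x :: D)))
      (asm k (fun j => P j ++ (wz n i p Z 0 (2 * n) j).flatMap (hs x a) ++ Q j)) := by
    apply allb (x := x) hit (mm0 hA.ik hC hO)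
    intro j hj
    by_cases e1 : j = i
    · obtain ⟨c1, _⟩ := hPQ j hj
      obtain ⟨d1, d2⟩ := c1 e1
      rw [d1, d2, e1, Function.update_self]
      have e : wz n i p Z 0 (2 * n) i = 1 :: X (2 * n) := by
        unfold wz
        rw [if_pos rfl]
        rfl
      have e' : (1 :: X (2 * n)).flatMap (hs x a) = a :: List.replicate (2 * n) x := by
        rw [List.flatMap_cons, hsX]
        rfl
      rw [e, e']
      have h := insi n x a A D
      simp only [List.append_assoc, List.cons_append] at h ⊢
      exact h
    · exact hoth _ _ _ j hj e1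
  have s3 : RR θ (asm k (Function.update C i (A ++ (List.replicate n x ++ a :: x :: x :: D))))
      (asm k (fun j => P j ++ (wz n i p Z (2 * n) (2 * n) j).flatMap (hs x a) ++ Q j)) := by
    apply allb (x := x) hit
    · refine mm_up hA.ik (mm0 hA.ik hC hO) ?_ ?_
      · intro c hc
        simp only [List.mem_append, List.mem_cons, List.mem_replicate] at hc ⊢
        tauto
      · intro c
        simp only [List.count_append]
        omega
    · intro j hj
      by_cases e1 : j = i
      · obtain ⟨c1, _⟩ := hPQ j hj
        obtain ⟨d1, d2⟩ := c1 e1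
        rw [d1, d2, e1, Function.update_self]
        have e : wz n i p Z (2 * n) (2 * n) i = X (2 * n) ++ 1 :: X (2 * n) := by
          unfold wz
          rw [if_pos rfl]
        have e' : (X (2 * n) ++ 1 :: X (2 * n)).flatMap (hs x a) =
            List.replicate (2 * n) x ++ a :: List.replicate (2 * n) x := by
          rw [List.flatMap_append, List.flatMap_cons, hsX]
          rfl
        rw [e, e']
        have h := hx0
        simp only [List.append_assoc, List.cons_append] at h ⊢
        exact h
      · exact hoth _ _ _ j hj e1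
  have fin := tr s1 (tr hr s3.symm)
  rw [asm_update hA.ik, asm_update hA.ik] at fin
  simpa only [MWGR.Wd, List.append_assoc] using fin

end Pool.Agent.MWGI.H53
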